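import Pool.Agent.TH370.AT.EXC1
import Pool.Agent.TH891.AT.HEAT
import Pool.Agent.TH811.AT.HEATX
import Pool.Agent.TH479.AT.STEIN

/-!
# From the Duhamel system to the Parisi equation
-/

set_option autoImplicit false

open MeasureTheory ProbabilityTheory Set Filter Topology

namespace Pool.TH370.AT.EXC

open Pool.TH198.AT

/-! ### Elementary functions -/

theorem const1 (c : ℝ) : E1 (fun _ => c) = c := by
  unfold E1
  simp

theorem hlc (x : ℝ) :
    HasDerivAt (fun x => Real.log (Real.cosh x)) (Real.tanh x) x := by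
  have h := (Real.hasDerivAt_cosh x).log (Real.cosh_pos x).ne'
  rwa [← Real.tanh_eq_sinh_div_cosh] at h

theorem hth (x : ℝ) : HasDerivAt Real.tanh (sech x ^ 2) x := by
  have h := (Real.hasDerivAt_sinh x).div (Real.hasDerivAt_cosh x) (Real.cosh_pos x).ne'
  have e : Real.tanh = fun x => Real.sinh x / Real.cosh x := by
    funext x
    exact Real.tanh_eq_sinh_div_cosh x
  have e2 : sech x ^ 2 = (Real.cosh x * Real.cosh x - Real.sinh x * Real.sinh x) /
      Real.cosh x ^ 2 := by
    have h1 : Real.cosh x * Real.cosh x - Real.sinh x * Real.sinh x = 1 := by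
      have := Real.cosh_sq_sub_sinh_sq x
      nlinarith [this]
    rw [h1, sech, inv_pow, one_div]
  rw [e, e2]
  exact h

theorem csech : Continuous sech := by
  unfold sech
  exact Real.continuous_cosh.inv₀ fun x => (Real.cosh_pos x).ne'

theorem cth : Continuous Real.tanh :=
  continuous_iff_continuousAt.2 fun x => (hth x).continuousAt

theorem idst (x : ℝ) : sech x ^ 2 + Real.tanh x ^ 2 = 1 := by
  rw [sech, Real.tanh_eq_sinh_div_cosh]
  have h := (Real.cosh_pos x).ne'
  have h1 := Real.cosh_sq_sub_sinh_sq x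
  field_simp
  linarith

theorem bth (x : ℝ) : |Real.tanh x| ≤ 1 := by
  have h := idst x
  rw [← sq_le_one_iff_abs_le_one]
  nlinarith [sq_nonneg (sech x)]

theorem bs (x : ℝ) : |sech x ^ 2| ≤ 1 := by
  have h := idst x
  rw [abs_of_nonneg (sq_nonneg _)]
  nlinarith [sq_nonneg (Real.tanh x)]

theorem lc : C2b (fun x => Real.log (Real.cosh x)) Real.tanh (fun x => sech x ^ 2) :=
  ⟨hlc, hth, csech.pow 2, 1, fun x => ⟨bth x, bs x⟩⟩

/-! ### Gaussian integrals with parameters -/

theorem cE0 {h : ℝ → ℝ → ℝ} (hh : Continuous fun p : ℝ × ℝ => h p.1 p.2) {M : ℝ}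
    (hM : ∀ r z, |h r z| ≤ M) (x : ℝ) :
    Continuous fun p : ℝ × ℝ => E1 fun y => h p.1 (x + p.2 * y) := by
  unfold E1
  refine continuous_of_dominated (bound := fun _ => M) ?_ ?_ (integrable_const _) ?_
  · intro p
    exact (hh.comp (by fun_prop : Continuous fun y : ℝ => (p.1, x + p.2 * y))).aestronglyMeasurable
  · intro p
    exact Eventually.of_forall fun y => by
      rw [Real.norm_eq_abs]
      exact hM _ _
  · exact Eventually.of_forall fun y =>
      hh.comp (by fun_prop : Continuous fun p : ℝ × ℝ => (p.1, x + p.2 * y))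

theorem cE1 {h : ℝ → ℝ → ℝ} (hh : Continuous fun p : ℝ × ℝ => h p.1 p.2) {M : ℝ}
    (hM : ∀ r z, |h r z| ≤ M) (x : ℝ) :
    Continuous fun p : ℝ × ℝ => E1 fun y => y * h p.1 (x + p.2 * y) := by
  unfold E1
  refine continuous_of_dominated (bound := fun y => |y| * M) ?_ ?_
    (heat_abs_int.mul_const M) ?_
  · intro p
    exact (continuous_id.mul (hh.comp
      (by fun_prop : Continuous fun y : ℝ => (p.1, x + p.2 * y)))).aestronglyMeasurable
  · intro p
    exact Eventually.of_forall fun y => by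
      rw [Real.norm_eq_abs, abs_mul]
      exact mul_le_mul_of_nonneg_left (hM _ _) (abs_nonneg y)
  · exact Eventually.of_forall fun y =>
      continuous_const.mul (hh.comp (by fun_prop : Continuous fun p : ℝ × ℝ => (p.1, x + p.2 * y)))

theorem bE0 {h : ℝ → ℝ} {M : ℝ} (hM : ∀ z, |h z| ≤ M) (x σ : ℝ) :
    |E1 fun y => h (x + σ * y)| ≤ M := by
  unfold E1
  have h := norm_integral_le_of_norm_le_const (μ := gaussianReal 0 1) (C := M)
    (f := fun y => h (x + σ * y)) (Eventually.of_forall fun y => by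
      rw [Real.norm_eq_abs]
      exact hM _)
  simpa using h

theorem bE1 {h : ℝ → ℝ} {M : ℝ} (hM : ∀ z, |h z| ≤ M) (x σ : ℝ) :
    |E1 fun y => y * h (x + σ * y)| ≤ E1 fun y => |y| * M := by
  unfold E1
  have h := norm_integral_le_of_norm_le (μ := gaussianReal 0 1)
    (f := fun y => y * h (x + σ * y)) (g := fun y => |y| * M) (heat_abs_int.mul_const M)
    (Eventually.of_forall fun y => by
      rw [Real.norm_eq_abs, abs_mul]
      exact mul_le_mul_of_nonneg_left (hM _) (abs_nonneg y))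
  rwa [Real.norm_eq_abs] at h

theorem stein {g k : ℝ → ℝ} (hg : ∀ z, HasDerivAt g (k z) z) (hk : Continuous k) {M : ℝ}
    (hgM : ∀ z, |g z| ≤ M) (hkM : ∀ z, |k z| ≤ M) (x σ : ℝ) :
    E1 (fun y => y * g (x + σ * y)) = σ * E1 (fun y => k (x + σ * y)) := by
  have hd : ∀ y, HasDerivAt (fun y => g (x + σ * y)) (k (x + σ * y) * σ) y := by
    intro y
    have h1 : HasDerivAt (fun y => x + σ * y) σ y := by
      simpa using ((hasDerivAt_id y).const_mul σ).const_add x
    exact (hg _).comp y h1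
  have hM0 : 0 ≤ M := (abs_nonneg _).trans (hgM 0)
  have h := Pool.TH479.AT.t_STEIN (fun y => g (x + σ * y)) (fun y => k (x + σ * y) * σ)
    (M + M * |σ|) 0 hd (by fun_prop)
    (fun y => by
      rw [zero_mul, Real.exp_zero, mul_one]
      have := mul_nonneg hM0 (abs_nonneg σ)
      linarith [hgM (x + σ * y)])
    (fun y => by
      rw [zero_mul, Real.exp_zero, mul_one, abs_mul]
      have := mul_le_mul_of_nonneg_right (hkM (x + σ * y)) (abs_nonneg σ)
      linarith)
  rw [h]
  unfold E1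
  rw [integral_mul_const, mul_comm]

theorem du {g k : ℝ → ℝ} (hg : ∀ z, HasDerivAt g (k z) z) (hk : Continuous k) {M : ℝ}
    (hgM : ∀ z, |g z| ≤ M) (hkM : ∀ z, |k z| ≤ M) (x c u : ℝ) :
    HasDerivAt (fun u => E1 (fun y => g (x + c * u * y)))
      (c * E1 (fun y => y * k (x + c * u * y))) u := by
  have hgc : Continuous g := continuous_iff_continuousAt.2 fun z => (hg z).continuousAt
  unfold E1
  rw [← integral_const_mul]
  refine (hasDerivAt_integral_of_dominated_loc_of_deriv_le (μ := gaussianReal 0 1)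
    (F := fun u y => g (x + c * u * y)) (F' := fun u y => c * (y * k (x + c * u * y)))
    (bound := fun y => |c| * (|y| * M)) (s := univ) univ_mem ?_ ?_ ?_ ?_ ?_ ?_).2
  · exact Eventually.of_forall fun u => (by fun_prop : Continuous fun y => g (x + c * u * y)).aestronglyMeasurable
  · refine Integrable.of_bound (by fun_prop : Continuous fun y => g (x + c * u * y)).aestronglyMeasurable M
      (Eventually.of_forall fun y => ?_)
    rw [Real.norm_eq_abs]
    exact hgM _
  · exact (by fun_prop : Continuous fun y => c * (y * k (x + c * u * y))).aestronglyMeasurable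
  · refine Eventually.of_forall fun y u _ => ?_
    rw [Real.norm_eq_abs, abs_mul, abs_mul]
    exact mul_le_mul_of_nonneg_left (mul_le_mul_of_nonneg_left (hkM _) (abs_nonneg y))
      (abs_nonneg c)
  · exact (heat_abs_int.mul_const M).const_mul |c|
  · refine Eventually.of_forall fun y u _ => ?_
    have h1 : HasDerivAt (fun u => x + c * u * y) (c * y) u := by
      have := (((hasDerivAt_id u).const_mul c).mul_const y).const_add x
      simpa using this
    have h2 := (hg (x + c * u * y)).comp u h1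
    refine h2.congr_deriv ?_
    ring

theorem int_du {g k : ℝ → ℝ} (hg : ∀ z, HasDerivAt g (k z) z) (hk : Continuous k) {M : ℝ}
    (hgM : ∀ z, |g z| ≤ M) (hkM : ∀ z, |k z| ≤ M) (x c s : ℝ) :
    ∫ u in (0 : ℝ)..s, c * E1 (fun y => y * k (x + c * u * y)) =
      E1 (fun y => g (x + c * s * y)) - g x := by
  have hc : Continuous fun u : ℝ => c * E1 (fun y => y * k (x + c * u * y)) := by
    have h1 := cE1 (h := fun _ z => k z) (hk.comp continuous_snd) (fun _ z => hkM z) x
    exact continuous_const.mul (h1.comp (by fun_prop : Continuous fun u : ℝ => ((0 : ℝ), c * u)))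
  rw [intervalIntegral.integral_eq_sub_of_hasDerivAt
    (f := fun u => E1 (fun y => g (x + c * u * y)))
    (fun u _ => du hg hk hgM hkM x c u) (hc.intervalIntegrable _ _)]
  simp only [mul_zero, zero_mul, add_zero, const1]

/-- the heat part -/
theorem heat2 (β t x : ℝ) (hβ : 0 < β) (ht : t ≤ 1) :
    ∫ r in t..1, β ^ 2 * E1 (fun y => sech (x + √(2 * β ^ 2 * (1 - r)) * y) ^ 2) =
      E1 (fun y => Real.log (Real.cosh (x + √(2 * β ^ 2 * (1 - t)) * y))) -
        Real.log (Real.cosh x) := by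
  obtain ⟨hder, hcont⟩ := t_HEAT Pool.TH479.AT.t_STEIN _ _ _ lc
  have hc2 : Continuous fun r : ℝ =>
      -E1 (fun y => Real.log (Real.cosh (x + √(2 * β ^ 2 * (1 - r)) * y))) := by
    refine Continuous.neg ?_
    exact hcont.comp (continuous_const.prodMk (by fun_prop) :
      Continuous fun r : ℝ => (x, 2 * β ^ 2 * (1 - r)))
  have hd2 : ∀ r ∈ Ioo t 1, HasDerivAt (fun r : ℝ =>
      -E1 (fun y => Real.log (Real.cosh (x + √(2 * β ^ 2 * (1 - r)) * y))))
      (β ^ 2 * E1 (fun y => sech (x + √(2 * β ^ 2 * (1 - r)) * y) ^ 2)) r := by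
    intro r hr
    have hpos : 0 < 2 * β ^ 2 * (1 - r) :=
      mul_pos (by positivity) (sub_pos.2 hr.2)
    have h1 := hder x _ hpos
    have h2 : HasDerivAt (fun r : ℝ => 2 * β ^ 2 * (1 - r)) (2 * β ^ 2 * (-1)) r :=
      ((hasDerivAt_id r).const_sub 1).const_mul (2 * β ^ 2)
    have h3 := (HasDerivAt.comp r h1 h2).neg
    refine h3.congr_deriv ?_
    ring
  have hc3 : Continuous fun r : ℝ =>
      β ^ 2 * E1 (fun y => sech (x + √(2 * β ^ 2 * (1 - r)) * y) ^ 2) := by
    have h1 := cE0 (h := fun _ z => sech z ^ 2) ((csech.pow 2).comp continuous_snd)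
      (fun _ z => bs z) x
    exact continuous_const.mul (h1.comp (by fun_prop :
      Continuous fun r : ℝ => (r, √(2 * β ^ 2 * (1 - r)))))
  rw [intervalIntegral.integral_eq_sub_of_hasDerivAt_of_le ht hc2.continuousOn hd2
    (hc3.intervalIntegrable _ _)]
  simp only [sub_self, mul_zero, Real.sqrt_zero, zero_mul, add_zero, const1]
  ring

theorem bint {F : ℝ → ℝ} (hF : Measurable F) {M : ℝ} (h : ∀ r, |F r| ≤ M) (a b : ℝ) :
    IntervalIntegrable F volume a b := by
  rw [intervalIntegrable_iff]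
  have : IsFiniteMeasure (volume.restrict (Set.uIoc a b)) :=
    ⟨by rw [Measure.restrict_apply_univ, Set.uIoc]; exact measure_Ioc_lt_top⟩
  refine Integrable.of_bound hF.aestronglyMeasurable M (Eventually.of_forall fun r => ?_)
  rw [Real.norm_eq_abs]
  exact h r

/-! ### The core -/

theorem core {β : ℝ} (hβ : 0 < β) {V W : ℝ → ℝ → ℝ} {Z : ℝ → ℝ} {C : ℝ}
    (hV : Continuous fun p : ℝ × ℝ => V p.1 p.2) (hW : Continuous fun p : ℝ × ℝ => W p.1 p.2)
    (hC : ∀ t x, |V t x| ≤ C ∧ |W t x| ≤ C) (hd : ∀ t x, HasDerivAt (V t) (W t x) x)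
    (hZ : Measurable Z) (hZ1 : ∀ t, |Z t| ≤ 1)
    (eV : ∀ t ∈ Icc (0 : ℝ) 1, ∀ x,
      V t x = E1 (fun y => Real.tanh (x + √(2 * β ^ 2 * (1 - t)) * y)) +
        √2 * β * ∫ u in (0 : ℝ)..√(1 - t), Z (t + u ^ 2) *
          E1 (fun y => y * psi (V (t + u ^ 2) (x + √2 * β * u * y))))
    (eW : ∀ t ∈ Icc (0 : ℝ) 1, ∀ x,
      W t x = E1 (fun y => sech (x + √(2 * β ^ 2 * (1 - t)) * y) ^ 2) +
        √2 * β * ∫ u in (0 : ℝ)..√(1 - t), Z (t + u ^ 2) *
          E1 (fun y => y * (psi1 (V (t + u ^ 2) (x + √2 * β * u * y)) *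
            W (t + u ^ 2) (x + √2 * β * u * y)))) :
    ∃ f : ℝ → ℝ → ℝ, (∀ t ∈ Icc (0 : ℝ) 1, ∀ x, HasDerivAt (f t) (V t x) x) ∧
      ∀ t ∈ Icc (0 : ℝ) 1, ∀ x, f t x =
        Real.log (Real.cosh x) + ∫ r in t..1, β ^ 2 * (W r x + Z r * psi (V r x)) := by
  have hC0 : 0 ≤ C := (abs_nonneg _).trans (hC 0 0).1
  obtain ⟨g, hgdef⟩ : ∃ g : ℝ → ℝ → ℝ, g = fun r z => psi (V r z) := ⟨_, rfl⟩
  obtain ⟨k, hkdef⟩ : ∃ k : ℝ → ℝ → ℝ, k = fun r z => psi1 (V r z) * W r z := ⟨_, rfl⟩
  obtain ⟨M, hMdef⟩ : ∃ M : ℝ, M = 2 * C + 1 := ⟨_, rfl⟩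
  have hg : ∀ r z, HasDerivAt (g r) (k r z) z := by
    intro r z
    rw [hgdef, hkdef]
    exact (hpsi (V r z)).comp z (hd r z)
  have cg : Continuous fun p : ℝ × ℝ => g p.1 p.2 := by
    rw [hgdef]
    exact cpsi.comp hV
  have ck : Continuous fun p : ℝ × ℝ => k p.1 p.2 := by
    rw [hkdef]
    exact (cpsi1.comp hV).mul hW
  have bg : ∀ r z, |g r z| ≤ M := by
    intro r z
    rw [hgdef, hMdef]
    exact psi_le (hC r z).1
  have bk : ∀ r z, |k r z| ≤ M := by
    intro r z
    rw [hkdef, hMdef]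
    simp only
    rw [abs_mul]
    have h1 := mul_le_mul (psi1_le (V r z)) (hC r z).2 (abs_nonneg _) (by norm_num : (0 : ℝ) ≤ 2)
    linarith
  have ckr : ∀ r, Continuous (k r) := fun r =>
    ck.comp (by fun_prop : Continuous fun z : ℝ => (r, z))
  have eV' : ∀ t ∈ Icc (0 : ℝ) 1, ∀ x,
      V t x = E1 (fun y => Real.tanh (x + √(2 * β ^ 2 * (1 - t)) * y)) +
        √2 * β * ∫ u in (0 : ℝ)..√(1 - t), Z (t + u ^ 2) *
          E1 (fun y => y * g (t + u ^ 2) (x + √2 * β * u * y)) := by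
    rw [hgdef]
    exact eV
  have eW' : ∀ t ∈ Icc (0 : ℝ) 1, ∀ x,
      W t x = E1 (fun y => sech (x + √(2 * β ^ 2 * (1 - t)) * y) ^ 2) +
        √2 * β * ∫ u in (0 : ℝ)..√(1 - t), Z (t + u ^ 2) *
          E1 (fun y => y * k (t + u ^ 2) (x + √2 * β * u * y)) := by
    rw [hkdef]
    exact eW
  have mg : ∀ (t x : ℝ), Measurable fun r => Z r * E1 (fun y => g r (x + √2 * β * √(r - t) * y)) := by
    intro t x
    refine hZ.mul ?_
    exact ((cE0 cg bg x).comp (by fun_prop :
      Continuous fun r : ℝ => (r, √2 * β * √(r - t)))).measurable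
  have mk : ∀ (t x : ℝ), Measurable fun r => Z r * E1 (fun y => k r (x + √2 * β * √(r - t) * y)) := by
    intro t x
    refine hZ.mul ?_
    exact ((cE0 ck bk x).comp (by fun_prop :
      Continuous fun r : ℝ => (r, √2 * β * √(r - t)))).measurable
  have hM0 : 0 ≤ M := (abs_nonneg _).trans (bg 0 0)
  have zb : ∀ (r a : ℝ), |a| ≤ M → |Z r * a| ≤ M := by
    intro r a ha
    rw [abs_mul]
    calc |Z r| * |a| ≤ 1 * M := mul_le_mul (hZ1 r) ha (abs_nonneg a) zero_le_one
      _ = M := one_mul M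
  have h22 : √2 * √2 = 2 := Real.mul_self_sqrt (by norm_num)
  refine ⟨fun t x => E1 (fun y => Real.log (Real.cosh (x + √(2 * β ^ 2 * (1 - t)) * y))) +
    β ^ 2 * ∫ r in t..1, Z r * E1 (fun y => g r (x + √2 * β * √(r - t) * y)), ?_, ?_⟩
  · intro t ht x
    have h1 := Pool.TH811.AT.t_HEATX _ _ 1 hlc cth bth √(2 * β ^ 2 * (1 - t)) x
    have h2 := (intervalIntegral.hasDerivAt_integral_of_dominated_loc_of_deriv_le
      (μ := volume) (a := t) (b := 1) (x₀ := x) (s := univ) (bound := fun _ => M)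
      (F := fun x r => Z r * E1 (fun y => g r (x + √2 * β * √(r - t) * y)))
      (F' := fun x r => Z r * E1 (fun y => k r (x + √2 * β * √(r - t) * y)))
      univ_mem (Eventually.of_forall fun x => (mg t x).aestronglyMeasurable)
      (bint (mg t x) (fun r => zb r _ (bE0 (bg r) _ _)) _ _)
      (mk t x).aestronglyMeasurable
      (Eventually.of_forall fun r _ x _ => by
        rw [Real.norm_eq_abs]
        exact zb r _ (bE0 (bk r) _ _))
      intervalIntegrable_const
      (Eventually.of_forall fun r _ x _ =>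
        (Pool.TH811.AT.t_HEATX _ _ M (hg r) (ckr r) (bk r) (√2 * β * √(r - t)) x).const_mul
          (Z r))).2
    refine (h1.add (h2.const_mul (β ^ 2))).congr_deriv ?_
    rw [eV' t ht x]
    congr 1
    rw [subst ht.2, ← intervalIntegral.integral_const_mul, ← intervalIntegral.integral_const_mul]
    refine intervalIntegral.integral_congr fun u hu => ?_
    rw [uIcc_of_le (Real.sqrt_nonneg _)] at hu
    rw [stein (hg _) (ckr _) (bg _) (bk _) x (√2 * β * u),
      show t + u ^ 2 - t = u ^ 2 by ring, Real.sqrt_sq hu.1]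
    calc β ^ 2 * (2 * u * (Z (t + u ^ 2) * E1 fun y => k (t + u ^ 2) (x + √2 * β * u * y))) =
        (2 : ℝ) * (β ^ 2 * u * (Z (t + u ^ 2) * E1 fun y =>
          k (t + u ^ 2) (x + √2 * β * u * y))) := by ring
      _ = √2 * √2 * (β ^ 2 * u * (Z (t + u ^ 2) * E1 fun y =>
          k (t + u ^ 2) (x + √2 * β * u * y))) := by rw [h22]
      _ = _ := by ring
  · intro t ht x
    simp only
    obtain ⟨H, hHdef⟩ : ∃ H : ℝ → ℝ → ℝ, H = fun ρ u =>
        Z ρ * E1 (fun y => y * k ρ (x + √2 * β * u * y)) := ⟨_, rfl⟩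
    have mH : Measurable (Function.uncurry H) := by
      rw [hHdef]
      refine (hZ.comp measurable_fst).mul ?_
      exact ((cE1 ck bk x).comp (by fun_prop :
        Continuous fun p : ℝ × ℝ => (p.1, √2 * β * p.2))).measurable
    have bH : ∀ r u, |H r u| ≤ E1 fun y => |y| * M := by
      intro r u
      rw [hHdef]
      simp only
      rw [abs_mul]
      have h1 := bE1 (bk r) x (√2 * β * u)
      calc |Z r| * |E1 fun y => y * k r (x + √2 * β * u * y)| ≤
          1 * |E1 fun y => y * k r (x + √2 * β * u * y)| :=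
            mul_le_mul_of_nonneg_right (hZ1 r) (abs_nonneg _)
        _ ≤ _ := by rw [one_mul]; exact h1
    have hfub := fubini mH bH ht.2
    have hin : ∀ ρ, √2 * β * ∫ u in (0 : ℝ)..√(ρ - t), H ρ u =
        Z ρ * E1 (fun y => g ρ (x + √2 * β * √(ρ - t) * y)) - Z ρ * g ρ x := by
      intro ρ
      rw [← mul_sub, ← int_du (hg ρ) (ckr ρ) (bg ρ) (bk ρ) x (√2 * β) √(ρ - t),
        ← intervalIntegral.integral_const_mul, ← intervalIntegral.integral_const_mul]
      refine intervalIntegral.integral_congr fun u _ => ?_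
      rw [hHdef]
      simp only
      ring
    have cS : Continuous fun r : ℝ =>
        E1 (fun y => sech (x + √(2 * β ^ 2 * (1 - r)) * y) ^ 2) := by
      have h1 := cE0 (h := fun _ z => sech z ^ 2) ((csech.pow 2).comp continuous_snd)
        (fun _ z => bs z) x
      exact h1.comp (by fun_prop : Continuous fun r : ℝ => (r, √(2 * β ^ 2 * (1 - r))))
    have cWx : Continuous fun r : ℝ => W r x :=
      hW.comp (by fun_prop : Continuous fun r : ℝ => (r, x))
    have iS : IntervalIntegrable (fun r : ℝ => β ^ 2 *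
        E1 (fun y => sech (x + √(2 * β ^ 2 * (1 - r)) * y) ^ 2)) volume t 1 :=
      (continuous_const.mul cS).intervalIntegrable _ _
    have iB : IntervalIntegrable (fun r : ℝ => β ^ 2 * (W r x -
        E1 (fun y => sech (x + √(2 * β ^ 2 * (1 - r)) * y) ^ 2))) volume t 1 :=
      (continuous_const.mul (cWx.sub cS)).intervalIntegrable _ _
    have cgx : Continuous fun r : ℝ => g r x :=
      cg.comp (by fun_prop : Continuous fun r : ℝ => (r, x))
    have iZ : IntervalIntegrable (fun r : ℝ => Z r * g r x) volume t 1 :=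
      bint (hZ.mul cgx.measurable) (fun r => zb r _ (bg r x)) _ _
    have iZE : IntervalIntegrable (fun r : ℝ => Z r *
        E1 (fun y => g r (x + √2 * β * √(r - t) * y))) volume t 1 :=
      bint (mg t x) (fun r => zb r _ (bE0 (bg r) _ _)) _ _
    have hB : ∫ r in t..1, β ^ 2 * (W r x -
        E1 (fun y => sech (x + √(2 * β ^ 2 * (1 - r)) * y) ^ 2)) =
        β ^ 2 * ((∫ r in t..1, Z r * E1 (fun y => g r (x + √2 * β * √(r - t) * y))) -
          ∫ r in t..1, Z r * g r x) := by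
      have h1 : ∫ r in t..1, β ^ 2 * (W r x -
          E1 (fun y => sech (x + √(2 * β ^ 2 * (1 - r)) * y) ^ 2)) =
          ∫ r in t..1, β ^ 2 * (√2 * β) * ∫ u in (0 : ℝ)..√(1 - r), H (r + u ^ 2) u := by
        refine intervalIntegral.integral_congr fun r hr => ?_
        rw [uIcc_of_le ht.2] at hr
        rw [eW' r ⟨ht.1.trans hr.1, hr.2⟩ x, hHdef]
        ring
      rw [h1, intervalIntegral.integral_const_mul, hfub, mul_assoc,
        ← intervalIntegral.integral_const_mul, ← intervalIntegral.integral_sub iZE iZ]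
      congr 1
      exact intervalIntegral.integral_congr fun ρ _ => hin ρ
    have h3 : (fun r => β ^ 2 * (W r x + Z r * psi (V r x))) = fun r =>
        β ^ 2 * E1 (fun y => sech (x + √(2 * β ^ 2 * (1 - r)) * y) ^ 2) +
        β ^ 2 * (W r x - E1 (fun y => sech (x + √(2 * β ^ 2 * (1 - r)) * y) ^ 2)) +
        β ^ 2 * (Z r * g r x) := by
      funext r
      rw [hgdef]
      ring
    rw [h3, intervalIntegral.integral_add (iS.add iB) (iZ.const_mul _),
      intervalIntegral.integral_add iS iB, hB, heat2 β t x hβ ht.2,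
      intervalIntegral.integral_const_mul]
    ring

/-- the nearest point of `[0,1]` -/
noncomputable def cl (t : ℝ) : ℝ := max 0 (min 1 t)

theorem cl_eq {t : ℝ} (ht : t ∈ Icc (0 : ℝ) 1) : cl t = t := by
  rw [cl, min_eq_right ht.2, max_eq_right ht.1]

theorem cl_mem (t : ℝ) : cl t ∈ Icc (0 : ℝ) 1 :=
  ⟨le_max_left _ _, max_le zero_le_one (min_le_left _ _)⟩

theorem ccl : Continuous cl := by
  unfold cl
  fun_prop

theorem mcl : Monotone cl := fun _ _ h => max_le_max le_rfl (min_le_min le_rfl h)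

theorem cl_u {t : ℝ} (ht : t ∈ Icc (0 : ℝ) 1) {u : ℝ} (hu : u ∈ Set.uIcc 0 √(1 - t)) :
    cl (t + u ^ 2) = t + u ^ 2 := by
  rw [uIcc_of_le (Real.sqrt_nonneg _)] at hu
  have h1 : u ^ 2 ≤ 1 - t := by
    rw [← Real.sq_sqrt (sub_nonneg.2 ht.2)]
    exact pow_le_pow_left₀ hu.1 hu.2 2
  exact cl_eq ⟨add_nonneg ht.1 (sq_nonneg u), by linarith⟩

theorem t_EXC : St_EXC := by
  intro β ζ v w hβ hζ hD
  obtain ⟨cv, cw, ⟨C, hC⟩, hd, ev, ew⟩ := hD
  obtain ⟨hmon, hbd, -, -⟩ := hζ
  have ccp : Continuous fun p : ℝ × ℝ => (cl p.1, p.2) :=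
    (ccl.comp continuous_fst).prodMk continuous_snd
  have cv' : Continuous fun p : ℝ × ℝ => v (cl p.1) p.2 :=
    cv.comp_continuous ccp fun p => ⟨cl_mem _, mem_univ _⟩
  have cw' : Continuous fun p : ℝ × ℝ => w (cl p.1) p.2 :=
    cw.comp_continuous ccp fun p => ⟨cl_mem _, mem_univ _⟩
  have mZ : Measurable fun t => ζ (cl t) :=
    Monotone.measurable fun a b h => hmon (cl_mem a) (cl_mem b) (mcl h)
  have hZ1 : ∀ t, |ζ (cl t)| ≤ 1 := by
    intro t
    obtain ⟨h1, h2⟩ := hbd _ (cl_mem t)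
    rw [abs_of_nonneg h1]
    exact h2
  have eV : ∀ t ∈ Icc (0 : ℝ) 1, ∀ x,
      v (cl t) x = E1 (fun y => Real.tanh (x + √(2 * β ^ 2 * (1 - t)) * y)) +
        √2 * β * ∫ u in (0 : ℝ)..√(1 - t), ζ (cl (t + u ^ 2)) *
          E1 (fun y => y * psi (v (cl (t + u ^ 2)) (x + √2 * β * u * y))) := by
    intro t ht x
    rw [cl_eq ht, ev t ht x]
    congr 2
    refine intervalIntegral.integral_congr fun u hu => ?_
    simp only [cl_u ht hu]
  have eW : ∀ t ∈ Icc (0 : ℝ) 1, ∀ x,
      w (cl t) x = E1 (fun y => sech (x + √(2 * β ^ 2 * (1 - t)) * y) ^ 2) +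
        √2 * β * ∫ u in (0 : ℝ)..√(1 - t), ζ (cl (t + u ^ 2)) *
          E1 (fun y => y * (psi1 (v (cl (t + u ^ 2)) (x + √2 * β * u * y)) *
            w (cl (t + u ^ 2)) (x + √2 * β * u * y))) := by
    intro t ht x
    rw [cl_eq ht, ew t ht x]
    congr 2
    refine intervalIntegral.integral_congr fun u hu => ?_
    simp only [cl_u ht hu]
  obtain ⟨f, hf1, hf2⟩ := core hβ (V := fun t x => v (cl t) x) (W := fun t x => w (cl t) x)
    (Z := fun t => ζ (cl t)) (C := C) cv' cw' (fun t x => hC _ (cl_mem t) x)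
    (fun t x => hd _ (cl_mem t) x) mZ hZ1 eV eW
  refine ⟨f, fun t ht x => ⟨?_, hd t ht x⟩, cv, cw, ⟨C, hC⟩, fun t ht x => ?_⟩
  · have h := hf1 t ht x
    simp only [cl_eq ht] at h
    exact h
  · rw [hf2 t ht x]
    congr 1
    refine intervalIntegral.integral_congr fun r hr => ?_
    rw [uIcc_of_le ht.2] at hr
    simp only [cl_eq ⟨ht.1.trans hr.1, hr.2⟩]

end Pool.TH370.AT.EXC
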