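import Pool.Agent.TH198.AT.Exist

/-!
# From the Duhamel system to the Parisi equation: tools
-/

set_option autoImplicit false

open MeasureTheory ProbabilityTheory Set Filter Topology

namespace Pool.TH370.AT.EXC

open Pool.TH198.AT

/-! ### The function `psi` -/

theorem psi_mid {u : ℝ} (h1 : -1 ≤ u) (h2 : u ≤ 1) : psi u = u ^ 2 := by
  rw [psi, if_pos (abs_le.2 ⟨h1, h2⟩)]

theorem psi_hi {u : ℝ} (h : 1 ≤ u) : psi u = 2 * u - 1 := by
  rcases h.lt_or_eq with h1 | h1
  · rw [psi, if_neg (by rw [not_le, abs_of_pos (by linarith)]; exact h1),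
      abs_of_pos (by linarith)]
  · rw [← h1, psi_mid (by norm_num) le_rfl]
    norm_num

theorem psi_lo {u : ℝ} (h : u ≤ -1) : psi u = -2 * u - 1 := by
  rcases h.lt_or_eq with h1 | h1
  · rw [psi, if_neg (by rw [not_le, abs_of_neg (by linarith)]; linarith),
      abs_of_neg (by linarith)]
    ring
  · rw [h1, psi_mid le_rfl (by norm_num)]
    norm_num

theorem psi1_mid {u : ℝ} (h1 : -1 ≤ u) (h2 : u ≤ 1) : psi1 u = 2 * u := by
  rw [psi1, min_eq_left h2, max_eq_right h1]

theorem psi1_hi {u : ℝ} (h : 1 ≤ u) : psi1 u = 2 := by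
  rw [psi1, min_eq_right h, max_eq_right (by norm_num)]
  norm_num

theorem psi1_lo {u : ℝ} (h : u ≤ -1) : psi1 u = -2 := by
  rw [psi1, min_eq_left (by linarith), max_eq_left h]
  norm_num

theorem psi_quad (u u0 : ℝ) : |psi u - psi u0 - (u - u0) * psi1 u0| ≤ (u - u0) ^ 2 := by
  rcases le_total u0 (-1) with a | a
  · rw [psi_lo a, psi1_lo a]
    rcases le_total u (-1) with b | b
    · rw [psi_lo b, abs_le]
      constructor <;> nlinarith [sq_nonneg (u - u0)]
    · rcases le_total u 1 with c | c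
      · rw [psi_mid b c, abs_le]
        constructor <;> nlinarith [mul_nonneg (by linarith : (0 : ℝ) ≤ u + 1)
          (by linarith : (0 : ℝ) ≤ -1 - u0), sq_nonneg (u + 1), sq_nonneg (u0 + 1)]
      · rw [psi_hi c, abs_le]
        constructor <;> nlinarith [mul_nonneg (by linarith : (0 : ℝ) ≤ u - 1)
          (by linarith : (0 : ℝ) ≤ -1 - u0), sq_nonneg (u - 1), sq_nonneg (u0 + 1)]
  · rcases le_total u0 1 with a' | a'
    · rw [psi_mid a a', psi1_mid a a']
      rcases le_total u (-1) with b | b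
      · rw [psi_lo b, abs_le]
        constructor <;> nlinarith [mul_nonneg (by linarith : (0 : ℝ) ≤ u0 + 1)
          (by linarith : (0 : ℝ) ≤ -1 - u), sq_nonneg (u + 1), sq_nonneg (u0 + 1)]
      · rcases le_total u 1 with c | c
        · rw [psi_mid b c, abs_le]
          constructor <;> nlinarith [sq_nonneg (u - u0)]
        · rw [psi_hi c, abs_le]
          constructor <;> nlinarith [mul_nonneg (by linarith : (0 : ℝ) ≤ 1 - u0)
            (by linarith : (0 : ℝ) ≤ u - 1), sq_nonneg (u - 1), sq_nonneg (u0 - 1)]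
    · rw [psi_hi a', psi1_hi a']
      rcases le_total u (-1) with b | b
      · rw [psi_lo b, abs_le]
        constructor <;> nlinarith [mul_nonneg (by linarith : (0 : ℝ) ≤ u0 - 1)
          (by linarith : (0 : ℝ) ≤ -1 - u), sq_nonneg (u + 1), sq_nonneg (u0 - 1)]
      · rcases le_total u 1 with c | c
        · rw [psi_mid b c, abs_le]
          constructor <;> nlinarith [mul_nonneg (by linarith : (0 : ℝ) ≤ 1 - u)
            (by linarith : (0 : ℝ) ≤ u0 - 1), sq_nonneg (u - 1), sq_nonneg (u0 - 1)]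
        · rw [psi_hi c, abs_le]
          constructor <;> nlinarith [sq_nonneg (u - u0)]

theorem hpsi (u0 : ℝ) : HasDerivAt psi (psi1 u0) u0 := by
  rw [hasDerivAt_iff_isLittleO]
  have h : (fun u => psi u - psi u0 - (u - u0) • psi1 u0) =O[𝓝 u0] fun u => ‖u - u0‖ ^ 2 := by
    refine Asymptotics.IsBigO.of_bound 1 (Eventually.of_forall fun u => ?_)
    rw [smul_eq_mul, Real.norm_eq_abs, one_mul, Real.norm_eq_abs, Real.norm_eq_abs, sq_abs,
      abs_of_nonneg (sq_nonneg (u - u0))]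
    exact psi_quad u u0
  exact h.trans_isLittleO (Asymptotics.isLittleO_pow_sub_sub u0 one_lt_two)

theorem cpsi : Continuous psi := continuous_iff_continuousAt.2 fun u => (hpsi u).continuousAt

theorem cpsi1 : Continuous psi1 := by
  unfold psi1
  fun_prop

theorem psi1_le (u : ℝ) : |psi1 u| ≤ 2 := by
  rw [psi1, abs_mul, abs_two]
  have h : |max (-1) (min u 1)| ≤ 1 :=
    abs_le.2 ⟨le_max_left _ _, max_le (by norm_num) (min_le_right _ _)⟩
  linarith

theorem psi_le {u C : ℝ} (h : |u| ≤ C) : |psi u| ≤ 2 * C + 1 := by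
  have h0 := abs_nonneg u
  rw [psi]
  split_ifs with h1
  · rw [abs_of_nonneg (sq_nonneg u), ← sq_abs]
    nlinarith
  · rw [abs_le]
    constructor <;> linarith

/-! ### Substitution and Fubini -/

theorem subst {t : ℝ} (ht : t ≤ 1) (Φ : ℝ → ℝ) :
    ∫ r in t..1, Φ r = ∫ u in (0 : ℝ)..√(1 - t), 2 * u * Φ (t + u ^ 2) := by
  have h0 : 0 ≤ 1 - t := sub_nonneg.2 ht
  have hb : 0 ≤ √(1 - t) := Real.sqrt_nonneg _
  have hb2 : √(1 - t) ^ 2 = 1 - t := Real.sq_sqrt h0
  rw [intervalIntegral.integral_of_le ht, intervalIntegral.integral_of_le hb,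
    integral_Ioc_eq_integral_Ioo, integral_Ioc_eq_integral_Ioo]
  have him : (fun u : ℝ => t + u ^ 2) '' Ioo 0 √(1 - t) = Ioo t 1 := by
    ext r
    constructor
    · rintro ⟨u, ⟨h1, h2⟩, rfl⟩
      have h3 : u ^ 2 < 1 - t := by rw [← hb2]; exact pow_lt_pow_left₀ h2 h1.le two_ne_zero
      have h4 : 0 < u ^ 2 := pow_pos h1 2
      exact ⟨by linarith, by linarith⟩
    · rintro ⟨h1, h2⟩
      refine ⟨√(r - t), ⟨Real.sqrt_pos.2 (by linarith), ?_⟩, ?_⟩
      · exact Real.sqrt_lt_sqrt (by linarith) (by linarith)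
      · simp only
        rw [Real.sq_sqrt (by linarith)]
        ring
  have hd : ∀ u ∈ Ioo 0 √(1 - t), HasDerivWithinAt (fun u : ℝ => t + u ^ 2) (2 * u)
      (Ioo 0 √(1 - t)) u := by
    intro u _
    have h1 := (hasDerivAt_pow 2 u).const_add t
    have h2 : HasDerivAt (fun u : ℝ => t + u ^ 2) (2 * u) u := by
      refine h1.congr_deriv ?_
      norm_num
    exact h2.hasDerivWithinAt
  have hinj : InjOn (fun u : ℝ => t + u ^ 2) (Ioo 0 √(1 - t)) := by
    intro u hu u' hu' h
    have h1 : u ^ 2 = u' ^ 2 := by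
      simp only at h
      linarith
    exact (pow_left_inj₀ hu.1.le hu'.1.le two_ne_zero).1 h1
  have key := integral_image_eq_integral_abs_deriv_smul measurableSet_Ioo hd hinj Φ
  rw [him] at key
  rw [key]
  refine setIntegral_congr_fun measurableSet_Ioo fun u hu => ?_
  simp only [smul_eq_mul]
  rw [abs_of_pos (by linarith [hu.1])]

theorem ite_int (s : Set ℝ) (P : ℝ → Prop) [DecidablePred P] (hP : MeasurableSet {u | P u})
    (h : ℝ → ℝ) : ∫ u in s, (if P u then h u else 0) = ∫ u in s ∩ {u | P u}, h u := by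
  classical
  rw [← setIntegral_indicator hP]
  congr 1
  funext u
  simp only [Set.indicator_apply, mem_ofPred_eq]

theorem fubini {H : ℝ → ℝ → ℝ} (hH : Measurable (Function.uncurry H)) {M : ℝ}
    (hM : ∀ r u, |H r u| ≤ M) {t : ℝ} (ht : t ≤ 1) :
    ∫ r in t..1, ∫ u in (0 : ℝ)..√(1 - r), H (r + u ^ 2) u =
      ∫ ρ in t..1, ∫ u in (0 : ℝ)..√(ρ - t), H ρ u := by
  have hM0 : 0 ≤ M := (abs_nonneg _).trans (hM 0 0)
  have h0 : 0 ≤ 1 - t := sub_nonneg.2 ht
  have hb2 : √(1 - t) ^ 2 = 1 - t := Real.sq_sqrt h0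
  rw [intervalIntegral.integral_of_le ht, intervalIntegral.integral_of_le ht,
    integral_Ioc_eq_integral_Ioo, integral_Ioc_eq_integral_Ioo]
  have e1 : ∫ r in Ioo t 1, ∫ u in (0 : ℝ)..√(1 - r), H (r + u ^ 2) u =
      ∫ r in Ioo t 1, ∫ u in Ioo 0 √(1 - t), if r + u ^ 2 < 1 then H (r + u ^ 2) u else 0 := by
    refine setIntegral_congr_fun measurableSet_Ioo fun r hr => ?_
    rw [intervalIntegral.integral_of_le (Real.sqrt_nonneg _), integral_Ioc_eq_integral_Ioo,
      ite_int _ _ (measurableSet_lt (by fun_prop) (by fun_prop))]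
    congr 2
    ext u
    simp only [mem_inter_iff, mem_Ioo, mem_ofPred_eq]
    constructor
    · rintro ⟨h1, h2⟩
      have h3 : u < √(1 - t) := h2.trans_le (Real.sqrt_le_sqrt (by linarith [hr.1]))
      refine ⟨⟨h1, h3⟩, ?_⟩
      have := (Real.lt_sqrt h1.le).1 h2
      linarith
    · rintro ⟨⟨h1, -⟩, h2⟩
      exact ⟨h1, (Real.lt_sqrt h1.le).2 (by linarith)⟩
  have e2 : ∫ ρ in Ioo t 1, ∫ u in (0 : ℝ)..√(ρ - t), H ρ u =
      ∫ ρ in Ioo t 1, ∫ u in Ioo 0 √(1 - t), if t + u ^ 2 < ρ then H ρ u else 0 := by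
    refine setIntegral_congr_fun measurableSet_Ioo fun ρ hρ => ?_
    rw [intervalIntegral.integral_of_le (Real.sqrt_nonneg _), integral_Ioc_eq_integral_Ioo,
      ite_int _ _ (measurableSet_lt (by fun_prop) (by fun_prop))]
    congr 2
    ext u
    simp only [mem_inter_iff, mem_Ioo, mem_ofPred_eq]
    constructor
    · rintro ⟨h1, h2⟩
      have h3 : u < √(1 - t) := h2.trans_le (Real.sqrt_le_sqrt (by linarith [hρ.2]))
      refine ⟨⟨h1, h3⟩, ?_⟩
      have := (Real.lt_sqrt h1.le).1 h2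
      linarith
    · rintro ⟨⟨h1, -⟩, h2⟩
      exact ⟨h1, (Real.lt_sqrt h1.le).2 (by linarith)⟩
  have hfin : ∀ F : ℝ → ℝ → ℝ, Measurable (Function.uncurry F) → (∀ r u, |F r u| ≤ M) →
      Integrable (Function.uncurry F) ((volume.restrict (Ioo t 1)).prod
        (volume.restrict (Ioo 0 √(1 - t)))) := by
    intro F hF hb
    refine Integrable.of_bound hF.aestronglyMeasurable M (Eventually.of_forall fun p => ?_)
    rw [Real.norm_eq_abs]
    exact hb _ _
  have hs1 : Integrable (Function.uncurry fun r u : ℝ =>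
      if r + u ^ 2 < 1 then H (r + u ^ 2) u else 0) ((volume.restrict (Ioo t 1)).prod
        (volume.restrict (Ioo 0 √(1 - t)))) := by
    refine hfin (fun r u => if r + u ^ 2 < 1 then H (r + u ^ 2) u else 0) ?_ ?_
    · refine Measurable.ite (measurableSet_lt (by fun_prop) (by fun_prop)) ?_ measurable_const
      exact hH.comp (by fun_prop : Measurable fun p : ℝ × ℝ => (p.1 + p.2 ^ 2, p.2))
    · intro r u
      split_ifs
      · exact hM _ _
      · rw [abs_zero]; exact hM0
  have hs2 : Integrable (Function.uncurry fun ρ u : ℝ =>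
      if t + u ^ 2 < ρ then H ρ u else 0) ((volume.restrict (Ioo t 1)).prod
        (volume.restrict (Ioo 0 √(1 - t)))) := by
    refine hfin (fun ρ u => if t + u ^ 2 < ρ then H ρ u else 0) ?_ ?_
    · refine Measurable.ite (measurableSet_lt (by fun_prop) (by fun_prop)) ?_ measurable_const
      exact hH
    · intro r u
      split_ifs
      · exact hM _ _
      · rw [abs_zero]; exact hM0
  rw [e1, e2, integral_integral_swap hs1, integral_integral_swap hs2]
  refine setIntegral_congr_fun measurableSet_Ioo fun u hu => ?_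
  have hu2 : u ^ 2 < 1 - t := by
    rw [← hb2]
    exact pow_lt_pow_left₀ hu.2 hu.1.le two_ne_zero
  have hu0 : 0 < u ^ 2 := pow_pos hu.1 2
  rw [ite_int _ _ (measurableSet_lt (by fun_prop) (by fun_prop)),
    ite_int _ _ (measurableSet_lt (by fun_prop) (by fun_prop))]
  have i1 : Ioo t 1 ∩ {r | r + u ^ 2 < 1} = Ioo t (1 - u ^ 2) := by
    ext r
    simp only [mem_inter_iff, mem_Ioo, mem_ofPred_eq]
    constructor
    · rintro ⟨⟨h1, -⟩, h2⟩
      exact ⟨h1, by linarith⟩
    · rintro ⟨h1, h2⟩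
      exact ⟨⟨h1, by linarith⟩, by linarith⟩
  have i2 : Ioo t 1 ∩ {ρ | t + u ^ 2 < ρ} = Ioo (t + u ^ 2) 1 := by
    ext r
    simp only [mem_inter_iff, mem_Ioo, mem_ofPred_eq]
    constructor
    · rintro ⟨⟨-, h1⟩, h2⟩
      exact ⟨h2, h1⟩
    · rintro ⟨h1, h2⟩
      exact ⟨⟨by linarith, h2⟩, h1⟩
  rw [i1, i2, ← integral_Ioc_eq_integral_Ioo, ← integral_Ioc_eq_integral_Ioo,
    ← intervalIntegral.integral_of_le (by linarith), ← intervalIntegral.integral_of_le
      (by linarith), intervalIntegral.integral_comp_add_right (fun ρ => H ρ u) (u ^ 2)]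
  rw [sub_add_cancel]

end Pool.TH370.AT.EXC
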