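import Pool.Agent.TH198.AT.Stmts

/-!
# The explicit solution of the Parisi equation for the one-point measure
-/

set_option autoImplicit false

open MeasureTheory ProbabilityTheory Set

namespace Pool.TH370.AT

open Pool.TH198.AT

private theorem F0_const (c : ℝ) : E1 (fun _ => c) = c := by
  unfold E1
  simp

private theorem F0_hlc (x : ℝ) :
    HasDerivAt (fun x => Real.log (Real.cosh x)) (Real.tanh x) x := by
  have h := (Real.hasDerivAt_cosh x).log (Real.cosh_pos x).ne'
  rwa [← Real.tanh_eq_sinh_div_cosh] at h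

private theorem F0_ht (x : ℝ) : HasDerivAt Real.tanh (sech x ^ 2) x := by
  have h := (Real.hasDerivAt_sinh x).div (Real.hasDerivAt_cosh x) (Real.cosh_pos x).ne'
  have e : Real.tanh = fun x => Real.sinh x / Real.cosh x := by
    funext x
    exact Real.tanh_eq_sinh_div_cosh x
  have e2 : sech x ^ 2 = (Real.cosh x * Real.cosh x - Real.sinh x * Real.sinh x) /
      Real.cosh x ^ 2 := by
    have h1 : Real.cosh x * Real.cosh x - Real.sinh x * Real.sinh x = 1 := by
      have := Real.cosh_sq_sub_sinh_sq x
      nlinarith [this]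
    rw [h1, sech, inv_pow, one_div]
  rw [e, e2]
  exact h

private theorem F0_csech : Continuous sech := by
  unfold sech
  exact Real.continuous_cosh.inv₀ fun x => (Real.cosh_pos x).ne'

private theorem F0_ctanh : Continuous Real.tanh :=
  continuous_iff_continuousAt.2 fun x => (F0_ht x).continuousAt

private theorem F0_id (x : ℝ) : sech x ^ 2 + Real.tanh x ^ 2 = 1 := by
  rw [sech, Real.tanh_eq_sinh_div_cosh]
  have h := (Real.cosh_pos x).ne'
  have h1 := Real.cosh_sq_sub_sinh_sq x
  field_simp
  linarith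

private theorem F0_bt (x : ℝ) : |Real.tanh x| ≤ 1 := by
  have h := F0_id x
  rw [← sq_le_one_iff_abs_le_one]
  nlinarith [sq_nonneg (sech x)]

private theorem F0_bs (x : ℝ) : |sech x ^ 2| ≤ 1 := by
  have h := F0_id x
  rw [abs_of_nonneg (sq_nonneg _)]
  nlinarith [sq_nonneg (Real.tanh x)]

private theorem F0_lc : C2b (fun x => Real.log (Real.cosh x)) Real.tanh (fun x => sech x ^ 2) :=
  ⟨F0_hlc, F0_ht, F0_csech.pow 2, 1, fun x => ⟨F0_bt x, F0_bs x⟩⟩

private theorem F0_cont {g : ℝ → ℝ} (hg : Continuous g) (hC : ∀ x, |g x| ≤ 1) (β q : ℝ) :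
    Continuous (fun p : ℝ × ℝ => E1 (fun y => g (p.2 + √(2 * β ^ 2 * (q - p.1)) * y))) := by
  unfold E1
  refine continuous_of_dominated (bound := fun _ => (1 : ℝ)) ?_ ?_ (integrable_const _) ?_
  · intro p
    exact (hg.comp (by fun_prop)).aestronglyMeasurable
  · intro p
    exact Filter.Eventually.of_forall fun y => by
      rw [Real.norm_eq_abs]
      exact hC _
  · exact Filter.Eventually.of_forall fun y => hg.comp (by fun_prop)

private theorem F0_bd {g : ℝ → ℝ} (hC : ∀ x, |g x| ≤ 1) (c σ : ℝ) :
    |E1 (fun y => g (c + σ * y))| ≤ 1 := by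
  unfold E1
  have h := norm_integral_le_of_norm_le_const (μ := gaussianReal 0 1) (C := 1)
    (f := fun y => g (c + σ * y)) (Filter.Eventually.of_forall fun y => by
      rw [Real.norm_eq_abs]
      exact hC _)
  simpa using h

private theorem F0_sqrt {β q t : ℝ} (h : q ≤ t) : √(2 * β ^ 2 * (q - t)) = 0 := by
  apply Real.sqrt_eq_zero_of_nonpos
  have : 0 ≤ 2 * β ^ 2 * (t - q) := mul_nonneg (by positivity) (sub_nonneg.2 h)
  linarith

private theorem F0_mono (q : ℝ) : Monotone (one q) := by
  intro s t hst
  unfold one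
  split_ifs with h1 h2 h2
  · exact le_rfl
  · exact absurd (h1.trans hst) h2
  · exact zero_le_one
  · exact le_rfl

theorem t_F0 (hH : St_HEAT) (hX : St_HEATX) : St_F0 := by
  intro β q hβ hq0 hq1
  obtain ⟨hder, hcont⟩ := hH _ _ _ F0_lc
  refine ⟨fun t x => E1 (fun y => Real.tanh (x + √(2 * β ^ 2 * (q - t)) * y)),
    fun t x => E1 (fun y => sech (x + √(2 * β ^ 2 * (q - t)) * y) ^ 2), ?_, ?_, ?_, ?_, ?_⟩
  · intro t _ x
    refine ⟨?_, ?_⟩
    · by_cases h : q ≤ t
      · have e : f0 β q t = fun x => Real.log (Real.cosh x) + β ^ 2 * (1 - t) := by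
          funext x
          rw [f0, if_pos h]
        change HasDerivAt _ (E1 fun y => Real.tanh (x + √(2 * β ^ 2 * (q - t)) * y)) x
        rw [e, F0_sqrt h]
        simp only [zero_mul, add_zero, F0_const]
        exact (F0_hlc x).add_const _
      · have e : f0 β q t = fun x =>
            E1 (fun y => Real.log (Real.cosh (x + √(2 * β ^ 2 * (q - t)) * y))) +
              β ^ 2 * (1 - q) := by
          funext x
          rw [f0, if_neg h]
        rw [e]
        exact (hX _ _ 1 F0_hlc F0_ctanh F0_bt _ x).add_const _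
    · exact hX _ _ 1 F0_ht (F0_csech.pow 2) F0_bs _ x
  · exact (F0_cont F0_ctanh F0_bt β q).continuousOn
  · exact (F0_cont (F0_csech.pow 2) F0_bs β q).continuousOn
  · exact ⟨1, fun t _ x => ⟨F0_bd F0_bt _ _, F0_bd (g := fun x => sech x ^ 2) F0_bs _ _⟩⟩
  · intro t ht x
    -- the part above `q`
    have hup : ∀ s, q ≤ s → s ≤ 1 → ∫ r in s..1, β ^ 2 *
        (E1 (fun y => sech (x + √(2 * β ^ 2 * (q - r)) * y) ^ 2) +
          one q r * E1 (fun y => Real.tanh (x + √(2 * β ^ 2 * (q - r)) * y)) ^ 2) =
        β ^ 2 * (1 - s) := by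
      intro s hs hs1
      have : ∫ r in s..1, β ^ 2 *
          (E1 (fun y => sech (x + √(2 * β ^ 2 * (q - r)) * y) ^ 2) +
            one q r * E1 (fun y => Real.tanh (x + √(2 * β ^ 2 * (q - r)) * y)) ^ 2) =
          ∫ r in s..1, β ^ 2 := by
        refine intervalIntegral.integral_congr fun r hr => ?_
        rw [uIcc_of_le hs1] at hr
        have hqr : q ≤ r := hs.trans hr.1
        simp only [F0_sqrt hqr, zero_mul, add_zero, F0_const, one, if_pos hqr, one_mul]
        rw [F0_id, mul_one]
      rw [this, intervalIntegral.integral_const, smul_eq_mul, mul_comm]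
    by_cases h : q ≤ t
    · rw [hup t h ht.2, f0, if_pos h]
    · rw [not_le] at h
      have hint : ∀ a b : ℝ, IntervalIntegrable (fun r => β ^ 2 *
        (E1 (fun y => sech (x + √(2 * β ^ 2 * (q - r)) * y) ^ 2) +
          one q r * E1 (fun y => Real.tanh (x + √(2 * β ^ 2 * (q - r)) * y)) ^ 2)) volume a b := by
        intro a b
        refine IntervalIntegrable.const_mul (IntervalIntegrable.add ?_ ?_) _
        · exact (((F0_cont (F0_csech.pow 2) F0_bs β q).comp
            (continuous_id.prodMk continuous_const))).intervalIntegrable _ _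
        · exact (F0_mono q).intervalIntegrable.mul_continuousOn
            ((((F0_cont F0_ctanh F0_bt β q).comp
              (continuous_id.prodMk continuous_const)).pow 2).continuousOn)
      rw [← intervalIntegral.integral_add_adjacent_intervals (hint t q) (hint q 1),
        hup q le_rfl hq1, f0, if_neg (not_le.2 h)]
      have hc2 : Continuous fun r : ℝ =>
          -E1 (fun y => Real.log (Real.cosh (x + √(2 * β ^ 2 * (q - r)) * y))) := by
        refine Continuous.neg ?_
        exact hcont.comp (continuous_const.prodMk (by fun_prop) :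
          Continuous fun r : ℝ => (x, 2 * β ^ 2 * (q - r)))
      have hd2 : ∀ r ∈ Ioo t q, HasDerivAt (fun r : ℝ =>
          -E1 (fun y => Real.log (Real.cosh (x + √(2 * β ^ 2 * (q - r)) * y))))
          (β ^ 2 * (E1 (fun y => sech (x + √(2 * β ^ 2 * (q - r)) * y) ^ 2) +
            one q r * E1 (fun y => Real.tanh (x + √(2 * β ^ 2 * (q - r)) * y)) ^ 2)) r := by
        intro r hr
        have hpos : 0 < 2 * β ^ 2 * (q - r) :=
          mul_pos (by positivity) (sub_pos.2 hr.2)
        have h1 := hder x _ hpos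
        have h2 : HasDerivAt (fun r : ℝ => 2 * β ^ 2 * (q - r)) (2 * β ^ 2 * (-1)) r :=
          ((hasDerivAt_id r).const_sub q).const_mul (2 * β ^ 2)
        have h3 := (HasDerivAt.comp r h1 h2).neg
        have e : β ^ 2 * (E1 (fun y => sech (x + √(2 * β ^ 2 * (q - r)) * y) ^ 2) +
            one q r * E1 (fun y => Real.tanh (x + √(2 * β ^ 2 * (q - r)) * y)) ^ 2) =
            -(E1 (fun y => sech (x + √(2 * β ^ 2 * (q - r)) * y) ^ 2) / 2 *
              (2 * β ^ 2 * (-1))) := by
          rw [one, if_neg (not_le.2 hr.2)]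
          ring
        rw [e]
        exact h3
      rw [intervalIntegral.integral_eq_sub_of_hasDerivAt_of_le h.le hc2.continuousOn hd2
        (hint t q)]
      rw [F0_sqrt (le_refl q)]
      simp only [zero_mul, add_zero, F0_const]
      ring

end Pool.TH370.AT
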